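import Pool.Agent.H12.P5.LfS
import Pool.Agent.H25.P4.LinD
import Pool.Agent.H20.KAL.TAY

/-!
# P5: the paths over a closed frame as polynomials in the time from the own time, (VEL)

A path over the closed frame is bounded on the window of `j` in the units of `(i, j)`, and on the
longer window of `j - r` in the units of `(i - 1, j - r)`. So its coefficients of the degrees above
the slope are small, and the second differences `b2`, `b1` are the coefficients.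
-/

set_option autoImplicit false

namespace Pool.P5

open Finset Real MvPolynomial
open Pool.Agent.H49.Ent Pool.Agent.H32.Dense Pool.STK Pool.STAT Pool.MIC.Frm Pool.MIC7 Pool.FRM
open Pool.GSD
open Pool.P4 (t0 rt pp PthC FraC bb ze zt z0 be GoodS FrP)

namespace Vel

/-- The velocity at the own time from the values at three times of the window. -/
theorem vel_abs {N : ℕ} {R : Polynomial ℝ} (hN : R.natDegree ≤ N) {γ : ℕ} {δ ρ σ B : ℝ}
    (hδ : 0 ≤ δ) (h0 : 0 ≤ ρ) (h1 : ρ ≤ 1) (hσ : |σ| ≤ 1) (hB : 0 ≤ B)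
    (hγ : γ = 1 ∨ (γ = 2 ∧ σ = 1 - 2 * ρ))
    (hc : ∀ m, γ < m → |R.coeff m| * δ ^ m ≤ B) :
    |R.coeff 1 * δ - ((R.eval ((1 - ρ) * δ) - R.eval (-ρ * δ)) -
      σ * (2 * (R.eval ((1 - ρ) * δ) - 2 * R.eval ((1 / 2 - ρ) * δ) + R.eval (-ρ * δ))))| ≤
      ((N : ℝ) + 2) * (10 * B) := by
  have hs : ∀ x : ℝ, R.eval (x * δ) = ∑ m ∈ range (N + 2), R.coeff m * δ ^ m * x ^ m := by
    intro x
    rw [Polynomial.eval_eq_sum_range' (by omega : R.natDegree < N + 2)]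
    refine Finset.sum_congr rfl fun m _ => ?_
    rw [mul_pow]
    ring
  have hs1 : R.coeff 1 * δ = ∑ m ∈ range (N + 2), R.coeff m * δ ^ m * (if m = 1 then 1 else 0) := by
    rw [Finset.sum_eq_single 1]
    · rw [if_pos rfl, pow_one, mul_one]
    · intro m _ hm
      rw [if_neg hm, mul_zero]
    · intro h
      exact absurd (Finset.mem_range.2 (by omega)) h
  obtain ⟨e, he⟩ : ∃ e : ℕ → ℝ, ∀ m, e m = (if m = 1 then 1 else 0) -
      (((1 - ρ) ^ m - (-ρ) ^ m) -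
        σ * (2 * ((1 - ρ) ^ m - 2 * (1 / 2 - ρ) ^ m + (-ρ) ^ m))) := ⟨_, fun _ => rfl⟩
  have key : R.coeff 1 * δ - ((R.eval ((1 - ρ) * δ) - R.eval (-ρ * δ)) -
      σ * (2 * (R.eval ((1 - ρ) * δ) - 2 * R.eval ((1 / 2 - ρ) * δ) + R.eval (-ρ * δ)))) =
      ∑ m ∈ range (N + 2), R.coeff m * δ ^ m * e m := by
    rw [hs1, hs (1 - ρ), hs (-ρ), hs (1 / 2 - ρ)]
    simp only [Finset.mul_sum, ← Finset.sum_sub_distrib, ← Finset.sum_add_distrib]
    refine Finset.sum_congr rfl fun m _ => ?_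
    rw [he]
    ring
  have hpow : ∀ (x : ℝ) (m : ℕ), |x| ≤ 1 → |x ^ m| ≤ 1 := fun x m hx => by
    rw [abs_pow]
    exact pow_le_one₀ (abs_nonneg _) hx
  have a1 : |1 - ρ| ≤ 1 := by
    rw [abs_le]
    constructor <;> linarith
  have a2 : |-ρ| ≤ 1 := by
    rw [abs_le]
    constructor <;> linarith
  have a3 : |1 / 2 - ρ| ≤ 1 := by
    rw [abs_le]
    constructor <;> linarith
  have hbd : ∀ m, 1 < m → |e m| ≤ 10 := by
    intro m hm
    rw [he, if_neg (by omega)]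
    have b1 := abs_le.1 (hpow _ m a1)
    have b2 := abs_le.1 (hpow _ m a2)
    have b3 := abs_le.1 (hpow _ m a3)
    have c1 : |(1 - ρ) ^ m - (-ρ) ^ m| ≤ 2 := by
      rw [abs_le]
      constructor <;> linarith [b1.1, b1.2, b2.1, b2.2]
    have c2 : |2 * ((1 - ρ) ^ m - 2 * (1 / 2 - ρ) ^ m + (-ρ) ^ m)| ≤ 8 := by
      rw [abs_le]
      constructor <;> linarith [b1.1, b1.2, b2.1, b2.2, b3.1, b3.2]
    have c3 : |σ * (2 * ((1 - ρ) ^ m - 2 * (1 / 2 - ρ) ^ m + (-ρ) ^ m))| ≤ 8 := by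
      rw [abs_mul]
      calc _ ≤ 1 * 8 := mul_le_mul hσ c2 (abs_nonneg _) (by norm_num)
        _ = 8 := by norm_num
    have c1' := abs_le.1 c1
    have c3' := abs_le.1 c3
    rw [abs_le]
    constructor <;> linarith [c1'.1, c1'.2, c3'.1, c3'.2]
  have hterm : ∀ m ∈ range (N + 2), |R.coeff m * δ ^ m * e m| ≤ 10 * B := by
    intro m _
    have hz : e m = 0 → |R.coeff m * δ ^ m * e m| ≤ 10 * B := fun h => by
      rw [h, mul_zero, abs_zero]
      positivity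
    rcases Nat.lt_or_ge γ m with hm | hm
    · have h2 : 1 < m := by
        rcases hγ with h | h
        · omega
        · have := h.1
          omega
      rw [abs_mul, abs_mul, abs_of_nonneg (pow_nonneg hδ m)]
      calc |R.coeff m| * δ ^ m * |e m| ≤ B * 10 :=
            mul_le_mul (hc m hm) (hbd m h2) (abs_nonneg _) hB
        _ = 10 * B := by ring
    · have hm2 : m = 0 ∨ m = 1 ∨ (m = 2 ∧ σ = 1 - 2 * ρ) := by
        rcases hγ with h | h
        · omega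
        · have h3 := h.1
          have h4 := h.2
          rcases (by omega : m = 0 ∨ m = 1 ∨ m = 2) with h5 | h5 | h5
          · exact Or.inl h5
          · exact Or.inr (Or.inl h5)
          · exact Or.inr (Or.inr ⟨h5, h4⟩)
      refine hz ?_
      rcases hm2 with h | h | ⟨h, hs⟩
      · rw [he, h, if_neg (by omega)]
        ring
      · rw [he, h, if_pos rfl]
        ring
      · rw [he, h, hs, if_neg (by omega)]
        ring
  rw [key]
  refine (Finset.abs_sum_le_sum_abs _ _).trans ((Finset.sum_le_sum hterm).trans (le_of_eq ?_))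
  rw [Finset.sum_const, Finset.card_range, nsmul_eq_mul]
  push_cast
  ring

/-- A polynomial with small coefficients is almost constant. -/
theorem con_abs {N : ℕ} {R : Polynomial ℝ} (hN : R.natDegree ≤ N) {ρ B h : ℝ}
    (hB : 0 ≤ B) (hc : ∀ m, 0 < m → |R.coeff m| * ρ ^ m ≤ B) (hh : |h| ≤ ρ) :
    |R.eval h - R.eval 0| ≤ ((N : ℝ) + 2) * B := by
  have hs : ∀ x : ℝ, R.eval x = ∑ m ∈ range (N + 2), R.coeff m * x ^ m := fun x =>
    Polynomial.eval_eq_sum_range' (by omega : R.natDegree < N + 2) x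
  rw [hs h, hs 0, ← Finset.sum_sub_distrib]
  have hterm : ∀ m ∈ range (N + 2), |R.coeff m * h ^ m - R.coeff m * 0 ^ m| ≤ B := by
    intro m _
    rcases Nat.eq_zero_or_pos m with hm | hm
    · rw [hm, pow_zero, pow_zero, sub_self, abs_zero]
      exact hB
    · rw [zero_pow (by omega), mul_zero, sub_zero, abs_mul, abs_pow]
      exact (mul_le_mul_of_nonneg_left (pow_le_pow_left₀ (abs_nonneg _) hh m)
        (abs_nonneg _)).trans (hc m hm)
  refine (Finset.abs_sum_le_sum_abs _ _).trans ((Finset.sum_le_sum hterm).trans (le_of_eq ?_))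
  rw [Finset.sum_const, Finset.card_range, nsmul_eq_mul]
  push_cast
  ring

/-- The coefficients from the values on a window. -/
theorem coef_long {N : ℕ} {Ct : ℝ} (h0 : 0 ≤ Ct) (hCt : ∀ (q : Polynomial ℝ) (M : ℝ),
    q.natDegree ≤ N → (∀ t : ℝ, 0 ≤ t → t ≤ 1 → |q.eval t| ≤ M) → ∀ m, m ≤ N →
    |q.coeff m| ≤ Ct * M) {R : Polynomial ℝ} (hN : R.natDegree ≤ N) {ρ A : ℝ} (hρ : 0 ≤ ρ)
    (hA : ∀ h, |h| ≤ ρ → |R.eval h| ≤ A) (m : ℕ) : |R.coeff m| * ρ ^ m ≤ Ct * A := by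
  have hA0 : 0 ≤ A := (abs_nonneg _).trans (hA 0 (by rw [abs_zero]; exact hρ))
  rcases Nat.lt_or_ge N m with hm | hm
  · rw [Polynomial.coeff_eq_zero_of_natDegree_lt (by omega : R.natDegree < m), abs_zero, zero_mul]
    exact mul_nonneg h0 hA0
  · have hq : (R.comp (Polynomial.C ρ * Polynomial.X)).natDegree ≤ N := by
      refine Polynomial.natDegree_comp_le.trans ?_
      calc R.natDegree * (Polynomial.C ρ * Polynomial.X).natDegree ≤ N * 1 :=
            Nat.mul_le_mul hN ((Polynomial.natDegree_C_mul_le _ _).trans Polynomial.natDegree_X_le)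
        _ = N := Nat.mul_one N
    have h1 := hCt _ A hq (fun t t0 t1 => by
      rw [Polynomial.eval_comp, Polynomial.eval_mul, Polynomial.eval_C, Polynomial.eval_X]
      refine hA _ ?_
      rw [abs_mul, abs_of_nonneg hρ, abs_of_nonneg t0]
      exact mul_le_of_le_one_right hρ t1) m hm
    rw [Polynomial.comp_C_mul_X_coeff, abs_mul, abs_of_nonneg (pow_nonneg hρ m)] at h1
    exact h1

/-- The coefficients of the degrees above the slope are small. -/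
theorem coef_small {Ct A E : ℝ} (h0 : 0 ≤ Ct) (hA : 0 ≤ A) {x : ℝ} {u v q m y z r c γ W : ℕ}
    (hx : |x| * (1 / 2 ^ W) ^ m ≤ Ct * (A * 2 ^ u / 2 ^ v)) (hE : (2 : ℝ) ^ (c * z) ≤ E)
    (hm : γ < m) (hyr : y ≤ r) (hu : u ≤ v + γ * (r * z) + c * z) (hq : W + r * z = q) :
    |x| * (1 / 2 ^ q) ^ m ≤ Ct * (A * E) * (1 / 2 ^ (y * z)) := by
  have e1 : ((1 : ℝ) / 2 ^ q) ^ m = (1 / 2 ^ W) ^ m * (1 / 2 ^ (r * z * m)) := by
    rw [← hq, div_pow, one_pow, div_pow, one_pow, one_div_mul_one_div, pow_add, mul_pow,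
      ← pow_mul 2 (r * z) m]
  have h1 : u + y * z ≤ v + r * z * m + c * z := by
    have e2 : (γ + 1) * (r * z) ≤ m * (r * z) := Nat.mul_le_mul_right _ hm
    have e3 : y * z ≤ r * z := Nat.mul_le_mul_right z hyr
    have e4 : (γ + 1) * (r * z) = γ * (r * z) + r * z := by ring
    have e5 : r * z * m = m * (r * z) := Nat.mul_comm _ _
    omega
  have h2 : (2 : ℝ) ^ u * 2 ^ (y * z) ≤ E * (2 ^ v * 2 ^ (r * z * m)) := by
    calc (2 : ℝ) ^ u * 2 ^ (y * z) = 2 ^ (u + y * z) := (pow_add _ _ _).symm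
      _ ≤ 2 ^ (v + r * z * m + c * z) := pow_le_pow_right₀ one_le_two h1
      _ = 2 ^ (c * z) * (2 ^ v * 2 ^ (r * z * m)) := by
          rw [pow_add, pow_add]
          ring
      _ ≤ _ := mul_le_mul_of_nonneg_right hE (by positivity)
  have h3 : (2 : ℝ) ^ u / 2 ^ v * (1 / 2 ^ (r * z * m)) ≤ E * (1 / 2 ^ (y * z)) := by
    rw [div_mul_div_comm, mul_one, mul_one_div, div_le_div_iff₀ (by positivity) (by positivity)]
    exact h2
  calc |x| * (1 / 2 ^ q) ^ m = |x| * (1 / 2 ^ W) ^ m * (1 / 2 ^ (r * z * m)) := by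
        rw [e1]
        ring
    _ ≤ Ct * (A * 2 ^ u / 2 ^ v) * (1 / 2 ^ (r * z * m)) :=
        mul_le_mul_of_nonneg_right hx (by positivity)
    _ = Ct * A * (2 ^ u / 2 ^ v * (1 / 2 ^ (r * z * m))) := by ring
    _ ≤ Ct * A * (E * (1 / 2 ^ (y * z))) := mul_le_mul_of_nonneg_left h3 (mul_nonneg h0 hA)
    _ = Ct * (A * E) * (1 / 2 ^ (y * z)) := by ring

/-- The numbers. -/
theorem nums (N e : ℕ) (Ct C₀ : ℝ) (hCt : 1 ≤ Ct) (hC₀ : 0 ≤ C₀) : ∃ C' : ℝ, 1 ≤ C' ∧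
    ∀ z : ℕ, 1 ≤ z → ∀ E : ℝ, E = exp (C₀ * z) →
      ((N : ℝ) + 2) * (10 * (Ct * ((4 * E) ^ e * E))) ≤ exp (C' * z) := by
  obtain ⟨k, hk⟩ : ∃ k : ℝ, k = ((N : ℝ) + 2) * (10 * (Ct * 4 ^ e)) := ⟨_, rfl⟩
  have hb : (1 : ℝ) ≤ Ct * 4 ^ e := one_le_mul_of_one_le_of_one_le hCt (one_le_pow₀ (by norm_num))
  have hN0 : (0 : ℝ) ≤ N := Nat.cast_nonneg N
  have hk1 : 1 ≤ k := by
    rw [hk]
    exact one_le_mul_of_one_le_of_one_le (by linarith) (by linarith)
  refine ⟨k + C₀ * (e + 1 : ℕ), by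
    have : 0 ≤ C₀ * (e + 1 : ℕ) := by positivity
    linarith only [hk1, this], fun z hz E hE => ?_⟩
  have hzr : (1 : ℝ) ≤ z := by exact_mod_cast hz
  have e1 : E ^ (e + 1) = exp (C₀ * (e + 1 : ℕ) * z) := by
    rw [hE, ← exp_nat_mul]
    congr 1
    ring
  have e2 : k ≤ exp (k * z) := by
    calc k ≤ k + 1 := by linarith only
      _ ≤ exp k := add_one_le_exp k
      _ ≤ exp (k * z) := exp_le_exp.2 (le_mul_of_one_le_right (by linarith only [hk1]) hzr)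
  calc ((N : ℝ) + 2) * (10 * (Ct * ((4 * E) ^ e * E))) = k * E ^ (e + 1) := by
        rw [hk, mul_pow, pow_succ]
        ring
    _ ≤ exp (k * z) * exp (C₀ * (e + 1 : ℕ) * z) := by
        rw [e1]
        exact mul_le_mul_of_nonneg_right e2 (exp_pos _).le
    _ = exp ((k + C₀ * (e + 1 : ℕ)) * z) := by
        rw [← exp_add]
        congr 1
        ring

theorem two_pow_le (c z : ℕ) : (2 : ℝ) ^ (c * z) ≤ exp ((c : ℝ) * z) := by
  have h1 : (2 : ℝ) ≤ exp 1 := by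
    have := add_one_le_exp (1 : ℝ)
    linarith only [this]
  calc (2 : ℝ) ^ (c * z) ≤ exp 1 ^ (c * z) := pow_le_pow_left₀ (by norm_num) h1 _
    _ = exp ((c : ℝ) * z) := by
        rw [← exp_nat_mul]
        congr 1
        push_cast
        ring

end Vel

open Vel

/-- **(VEL)** -/
theorem vel_stmt : VelStmt := by
  intro n K K' lam gam C₁ C hn hC₁ hC hlam
  obtain ⟨K₂, hK₂⟩ : ∃ K₂, K₂ = K + K' := ⟨_, rfl⟩
  obtain ⟨N, hN⟩ : ∃ N, N = (K' + 1) * (K + 1) := ⟨_, rfl⟩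
  obtain ⟨Ct₀, hCt₀, hcb₀⟩ := Pool.KAL.TAY.coef_bound N
  obtain ⟨Ct, hCt⟩ : ∃ Ct, Ct = Ct₀ + 1 := ⟨_, rfl⟩
  have hCt1 : 1 ≤ Ct := by linarith
  have hCt0 : 0 ≤ Ct := by linarith
  have hcb : ∀ (q : Polynomial ℝ) (M : ℝ), q.natDegree ≤ N →
      (∀ t : ℝ, 0 ≤ t → t ≤ 1 → |q.eval t| ≤ M) → ∀ m, m ≤ N → |q.coeff m| ≤ Ct * M := by
    intro q M h1 h2 m hm
    have hM : 0 ≤ M := (abs_nonneg _).trans (h2 0 le_rfl zero_le_one)
    refine (hcb₀ q M h1 h2 m hm).trans (mul_le_mul_of_nonneg_right ?_ hM)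
    linarith
  obtain ⟨c, hc⟩ := exists_nat_ge (2 * C₁ + 1)
  obtain ⟨C₀, hC₀⟩ : ∃ C₀ : ℝ, C₀ = C + 1 + c := ⟨_, rfl⟩
  have hc0 : (0 : ℝ) ≤ c := Nat.cast_nonneg c
  obtain ⟨e, he⟩ : ∃ e, e = dd (K₂ * (K₂ + 1) ^ n) n := ⟨_, rfl⟩
  obtain ⟨C', hC', hnum⟩ := nums N e Ct C₀ hCt1 (by rw [hC₀]; positivity)
  refine ⟨C', hC', fun y r r2 r' r'' a M => ⟨1, ?_⟩⟩
  intro J a₀ w₀ z i j D q κ hz hPl hO P ω hω hG hFP
  have hzr : (1 : ℝ) ≤ z := by exact_mod_cast hz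
  have hz0 : (0 : ℝ) ≤ z := by linarith only [hzr]
  have hS := hPl.stp
  have y1 := hPl.y1
  have i1 := hPl.i1
  have i2 := hPl.i2
  have j1 := hPl.j1
  have j2 := hPl.j2
  have a1 := hPl.a1
  have er := hS.er
  have ya := hS.ya
  obtain ⟨E, hE⟩ : ∃ E : ℝ, E = exp (C₀ * z) := ⟨_, rfl⟩
  have hE1 : exp z ≤ E := by
    rw [hE]
    refine exp_le_exp.2 (le_mul_of_one_le_left hz0 ?_)
    rw [hC₀]
    linarith only [hC, hc0]
  have hE2 : exp (C * z) ≤ E := by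
    rw [hE]
    refine exp_le_exp.2 (mul_le_mul_of_nonneg_right ?_ hz0)
    rw [hC₀]
    linarith only [hc0]
  have hE3 : (2 : ℝ) ^ (c * z) ≤ E := by
    refine (two_pow_le c z).trans ?_
    rw [hE]
    refine exp_le_exp.2 (mul_le_mul_of_nonneg_right ?_ hz0)
    rw [hC₀]
    linarith only [hC]
  have hEone : 1 ≤ E := (one_le_exp hz0).trans hE1
  obtain ⟨A, hA⟩ : ∃ A : ℝ, A = (4 * E) ^ e := ⟨_, rfl⟩
  have hA1 : 1 ≤ A := by
    rw [hA]
    exact one_le_pow₀ (by linarith only [hEone])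
  have hA0 : 0 ≤ A := by linarith only [hA1]
  obtain ⟨B, hB⟩ : ∃ B : ℝ, B = Ct * (A * E) := ⟨_, rfl⟩
  have hAB : A ≤ B := by
    rw [hB]
    calc A = 1 * (A * 1) := by ring
      _ ≤ Ct * (A * E) := mul_le_mul hCt1 (mul_le_mul_of_nonneg_left hEone hA0)
          (by linarith only [hA0]) hCt0
  have hB0 : 0 ≤ B := hA0.trans hAB
  have hN0 : (0 : ℝ) ≤ N := Nat.cast_nonneg N
  have hfin : ((N : ℝ) + 2) * (10 * B) ≤ exp (C' * z) := by
    rw [hB, hA]
    exact hnum z hz E hE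
  have hNB : 0 ≤ (N : ℝ) * B := mul_nonneg hN0 hB0
  have hfin2 : ((N : ℝ) + 2) * B ≤ exp (C' * z) := by
    refine le_trans ?_ hfin
    linarith
  have hfin3 : A ≤ exp (C' * z) := by
    refine le_trans ?_ hfin2
    linarith
  obtain ⟨δ, hδ⟩ : ∃ δ : ℝ, δ = 1 / 2 ^ (y * z) := ⟨_, rfl⟩
  have hδ0 : 0 ≤ δ := by rw [hδ]; positivity
  have eδ : exp (C' * z) / 2 ^ (y * z) = exp (C' * z) * δ := by
    rw [hδ, mul_one_div]
  rw [eδ]
  -- the polynomials
  choose R₀ hR₀d hR₀e using fun l =>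
    Pool.P4L.path_pol (K := K) (K' := K') hO.pa_deg hFP.deg (D.ln ω) l
  obtain ⟨R, hR⟩ : ∃ R : ℕ → Polynomial ℝ, ∀ l, R l = Polynomial.C ((2 : ℝ) ^ D.g i j l) *
    (R₀ l).comp (Polynomial.X + Polynomial.C (D.X ω 0)) := ⟨_, fun _ => rfl⟩
  have hRd : ∀ l, (R l).natDegree ≤ N := by
    intro l
    rw [hR, hN]
    refine (Polynomial.natDegree_C_mul_le _ _).trans (Polynomial.natDegree_comp_le.trans ?_)
    rw [Polynomial.natDegree_X_add_C, Nat.mul_one]
    exact hR₀d l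
  have hRz : ∀ l h, (R l).eval h = 2 ^ D.g i j l * zs P (pp D (D.ln ω) (D.X ω 0 + h)) l := by
    intro l h
    rw [hR, Polynomial.eval_mul, Polynomial.eval_C, Polynomial.eval_comp, Polynomial.eval_add,
      Polynomial.eval_X, Polynomial.eval_C, hR₀e, add_comm h]
  have hRe : ∀ l h, (R l).eval h = nat (D.g i j) P (pp D (D.ln ω) (D.X ω 0 + h)) l := by
    intro l h
    rw [hRz, nat_eq]
  have hP := hFP.tri
  have hK1 : K ≤ K₂ := by omega
  have dP : ∀ l, (P l).totalDegree ≤ K₂ := fun l => (hFP.deg l).trans (by omega)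
  have nP : ∀ l ≤ n,
      nrm (D.g i j) (1 / 2) (chr P (D.Φ i j ω l - P l)) ≤ E / 2 ^ D.g i j l ∧
      nrm (D.g (i - 1) (j - r)) (1 / 2) (chr P (D.Φ (i - 1) (j - r) ω l - P l)) ≤
        E / 2 ^ D.g (i - 1) (j - r) l := fun l hl =>
    ⟨(hFP.near i le_rfl l hl).1.trans (div_le_div_of_nonneg_right hE2 (by positivity)),
      (hFP.near i le_rfl l hl).2.trans (div_le_div_of_nonneg_right hE2 (by positivity))⟩
  have box : ∀ l ≤ n, ∀ h, |h| ≤ 1 / 2 ^ (w₀ + j * z) → |(R l).eval h| ≤ A := by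
    intro l hl h hh
    have h1 := Pool.P4L.in_box hO hK1 hP dP (i := i) (j := j) (by omega) (by omega) hE1 hG.pc
      (fun l hl => (nP l hl).1) (t := D.X ω 0 + h) (by rwa [add_sub_cancel_left]) l hl
    rw [← he, ← hA, le_div_iff₀ (by positivity)] at h1
    rw [hRz, abs_mul, abs_of_pos (by positivity : (0 : ℝ) < 2 ^ D.g i j l), mul_comm]
    exact h1
  have long : ∀ l ≤ n, ∀ h, |h| ≤ 1 / 2 ^ (w₀ + (j - r) * z) →
      |(R l).eval h| ≤ A * 2 ^ D.g i j l / 2 ^ D.g (i - 1) (j - r) l := by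
    intro l hl h hh
    have h1 := Pool.P4L.in_box hO hK1 hP dP (i := i - 1) (j := j - r) (by omega) (by omega) hE1
      hG.pc (fun l hl => (nP l hl).2) (t := D.X ω 0 + h) (by rwa [add_sub_cancel_left]) l hl
    rw [← he, ← hA] at h1
    rw [hRz, abs_mul, abs_of_pos (by positivity : (0 : ℝ) < 2 ^ D.g i j l)]
    refine (mul_le_mul_of_nonneg_left h1 (by positivity)).trans (le_of_eq ?_)
    ring
  -- levels
  have ejr : ((j - r : ℕ) : ℝ) = j - r := by rw [Nat.cast_sub j1]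
  have hi1 : 1 ≤ i := by omega
  have ei1 : ((i - 1 : ℕ) : ℝ) = i - 1 := by rw [Nat.cast_sub hi1, Nat.cast_one]
  have lev : ∀ (l γ : ℕ), 1 ≤ l → l ≤ n → gam l = γ →
      D.g i j l ≤ D.g (i - 1) (j - r) l + γ * (r * z) + c * z := by
    intro l γ l1 ln hγ
    have h := (abs_le.1 (Pool.P4L.lv_ok hO hlam (i₁ := i) (j₁ := j) (i₂ := i - 1) (j₂ := j - r)
      (by omega) (by omega) (by omega) (by omega) l1 ln)).2
    rw [ejr, ei1, hγ] at h
    have h2 : (2 * C₁ + 1) * z ≤ c * z := mul_le_mul_of_nonneg_right hc hz0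
    have e1 : ((i : ℝ) - (i - 1) + γ * (j - (j - r))) * z = z + γ * (r * z) := by ring
    rw [e1] at h
    have h3 : (D.g i j l : ℝ) ≤ D.g (i - 1) (j - r) l + γ * (r * z) + c * z := by linarith
    exact_mod_cast h3
  have hW : w₀ + (j - r) * z + r * z = w₀ + j * z := by
    have : (j - r) * z + r * z = j * z := by
      rw [← add_mul]
      congr 1
      omega
    omega
  have small : ∀ (l γ : ℕ), 1 ≤ l → l ≤ n → gam l = γ → ∀ m, γ < m →
      |(R l).coeff m| * (1 / 2 ^ (w₀ + j * z)) ^ m ≤ B * δ := by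
    intro l γ l1 ln hγ m hm
    have h1 := coef_long hCt0 hcb (hRd l) (ρ := 1 / 2 ^ (w₀ + (j - r) * z)) (by positivity)
      (long l ln) m
    have h2 := coef_small hCt0 hA0 h1 hE3 hm (by omega : y ≤ r) (lev l γ l1 ln hγ) hW
    rw [hB, hδ]
    exact h2
  have hBδ : 0 ≤ B * δ := mul_nonneg hB0 hδ0
  rw [hN] at hRd
  refine ⟨R, hRd, hRe, fun l _ ln h hh => (box l ln h hh).trans hfin3,
    fun l hl h hh => ?_, fun w hw1 hw2 => ?_⟩
  · rw [← hN] at hRd
    refine (con_abs (hRd l) hBδ (small l 0 hl.1 hl.2.1.le (by rw [hl.2.2, Nat.cast_zero])) hh).trans ?_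
    rw [← mul_assoc]
    exact mul_le_mul_of_nonneg_right hfin2 hδ0
  rw [← hN] at hRd
  have hwJ : w ≤ J := by
    have e1 := hO.top
    have e2 := hO.thin
    have e3 : (j + 1) * z ≤ (M + 1) * z := Nat.mul_le_mul_right z (by omega)
    omega
  obtain ⟨r0, r1, rX⟩ := Pool.P4L.tms hO hwJ ω
  have hpw : (1 : ℝ) / 2 ^ w ≤ 1 / 2 ^ (w₀ + j * z) :=
    one_div_le_one_div_of_le (by positivity) (pow_le_pow_right₀ one_le_two hw1)
  have hpw0 : (0 : ℝ) ≤ 1 / 2 ^ w := by positivity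
  have sw : ∀ (l γ : ℕ), 1 ≤ l → l ≤ n → gam l = γ → ∀ m, γ < m →
      |(R l).coeff m| * (1 / 2 ^ w) ^ m ≤ B * δ := fun l γ l1 ln hγ m hm =>
    (mul_le_mul_of_nonneg_left (pow_le_pow_left₀ hpw0 hpw m) (abs_nonneg _)).trans
      (small l γ l1 ln hγ m hm)
  have ezt : ∀ (l : ℕ) (t h : ℝ), D.X ω 0 + h = t →
      zt D i j r (fun _ => P) t ω l = (R l).eval h := by
    intro l t h ht
    rw [hRe, ht]
    rfl
  have v1 : ∀ l, zt D i j r (fun _ => P) (t0 D J w ω + 1 / 2 ^ w) ω l =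
      (R l).eval ((1 - rt D J w ω) * (1 / 2 ^ w)) := fun l => ezt l _ _ (by rw [rX]; ring)
  have v2 : ∀ l, zt D i j r (fun _ => P) (t0 D J w ω + 1 / 2 * (1 / 2 ^ w)) ω l =
      (R l).eval ((1 / 2 - rt D J w ω) * (1 / 2 ^ w)) := fun l => ezt l _ _ (by rw [rX]; ring)
  have v3 : ∀ l, z0 D J w i j r (fun _ => P) ω l = (R l).eval (-rt D J w ω * (1 / 2 ^ w)) :=
    fun l => ezt l _ _ (by rw [rX]; ring)
  have fin : ∀ x : ℝ, x ≤ ((N : ℝ) + 2) * (10 * (B * δ)) → x ≤ exp (C' * z) * δ := by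
    intro x hx
    refine hx.trans ?_
    rw [← mul_assoc 10 B δ, ← mul_assoc]
    exact mul_le_mul_of_nonneg_right hfin hδ0
  refine ⟨fun l hl => ?_, fun u hu => ?_⟩
  · have h1 := vel_abs (hRd l) (γ := 1) (σ := 1) hpw0 r0 r1 (by rw [abs_one]) hBδ (Or.inl rfl)
      (sw l 1 hl.1 hl.2.1.le (by rw [hl.2.2, Nat.cast_one]))
    refine fin _ (le_trans (le_of_eq ?_) h1)
    unfold b1 b2 be
    rw [v1, v2, v3]
    congr 1
    ring
  · have hu' := (gr_iff hS.g3 u).1 hu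
    have h1 := vel_abs (hRd u) (γ := 2) (σ := 1 - 2 * rt D J w ω) hpw0 r0 r1 (by
      rw [abs_le]
      constructor <;> linarith) hBδ (Or.inr ⟨rfl, rfl⟩)
      (sw u 2 hu'.1 hu'.2.1 (by rw [hu'.2.2]; norm_num))
    refine fin _ (le_trans (le_of_eq ?_) h1)
    unfold b1 b2 be
    rw [v1, v2, v3]
    congr 1
    ring

end Pool.P5
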